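import Mathlib
import Pool.Agent.Helper62.Disc.LLL

/-! HLL, module Pairs (helper26): colourings without monochromatic `n`-term progressions in which the
positions `2 i` and `2 i + 1` get opposite colours, by the local lemma. -/

set_option autoImplicit false

namespace Pool.Agent.HLL

open Finset MeasureTheory
open scoped ENNReal

/-- fair coin on `{0, 1}` -/
private noncomputable def coin : Measure ℝ :=
  (2⁻¹ : ℝ≥0∞) • Measure.dirac 0 + (2⁻¹ : ℝ≥0∞) • Measure.dirac 1

private instance : IsProbabilityMeasure coin := by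
  constructor
  unfold coin
  simp [ENNReal.inv_two_add_inv_two]

private theorem coin_lt : coin {t : ℝ | t < 1 / 2} = 2⁻¹ := by
  unfold coin
  have h : MeasurableSet {t : ℝ | t < 1 / 2} := measurableSet_Iio
  simp [Measure.dirac_apply' _ h, Set.indicator]
  norm_num

private theorem coin_ge : coin {t : ℝ | ¬ t < 1 / 2} = 2⁻¹ := by
  unfold coin
  have h : MeasurableSet {t : ℝ | ¬ t < 1 / 2} := by
    have : {t : ℝ | ¬ t < 1 / 2} = {t : ℝ | t < 1 / 2}ᶜ := rfl
    rw [this]
    exact measurableSet_Iio.compl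
  simp only [Measure.coe_add, Measure.coe_smul, Pi.add_apply, Pi.smul_apply,
    Measure.dirac_apply' _ h, smul_eq_mul]
  simp [Set.indicator]
  norm_num

open Classical in
/-- the colouring given by a point of the probability space -/
private noncomputable def cl {M : ℕ} (ω : Fin M → ℝ) (x : ℕ) : Bool :=
  if h : x / 2 < M then (decide (ω ⟨x / 2, h⟩ < 1 / 2) == decide (x % 2 = 0)) else true

private theorem cl_congr {M : ℕ} {ω ω' : Fin M → ℝ} {x : ℕ} (h : x / 2 < M)
    (he : ω ⟨x / 2, h⟩ = ω' ⟨x / 2, h⟩) : cl ω x = cl ω' x := by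
  unfold cl
  rw [dif_pos h, dif_pos h, he]

private theorem cl_meas {M : ℕ} (x : ℕ) (b : Bool) : MeasurableSet {ω : Fin M → ℝ | cl ω x = b} := by
  by_cases h : x / 2 < M
  · have h1 : MeasurableSet {ω : Fin M → ℝ | ω ⟨x / 2, h⟩ < 1 / 2} :=
      measurableSet_lt (measurable_pi_apply _) measurable_const
    by_cases h2 : decide (x % 2 = 0) = b
    · have : {ω : Fin M → ℝ | cl ω x = b} = {ω : Fin M → ℝ | ω ⟨x / 2, h⟩ < 1 / 2} ∨
          {ω : Fin M → ℝ | cl ω x = b} = {ω : Fin M → ℝ | ω ⟨x / 2, h⟩ < 1 / 2}ᶜ := by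
        unfold cl
        simp only [dif_pos h]
        rcases Bool.eq_false_or_eq_true b with hb | hb <;>
        rcases Bool.eq_false_or_eq_true (decide (x % 2 = 0)) with hx | hx <;>
        simp_all <;>
        first
          | (left; ext ω; simp; done)
          | (right; ext ω; simp; done)
          | skip
      rcases this with h3 | h3
      · rw [h3]; exact h1
      · rw [h3]; exact h1.compl
    · have : {ω : Fin M → ℝ | cl ω x = b} = {ω : Fin M → ℝ | ω ⟨x / 2, h⟩ < 1 / 2} ∨
          {ω : Fin M → ℝ | cl ω x = b} = {ω : Fin M → ℝ | ω ⟨x / 2, h⟩ < 1 / 2}ᶜ := by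
        unfold cl
        simp only [dif_pos h]
        rcases Bool.eq_false_or_eq_true b with hb | hb <;>
        rcases Bool.eq_false_or_eq_true (decide (x % 2 = 0)) with hx | hx <;>
        simp_all <;>
        first
          | (left; ext ω; simp; done)
          | (right; ext ω; simp; done)
          | skip
      rcases this with h3 | h3
      · rw [h3]; exact h1
      · rw [h3]; exact h1.compl
  · have : {ω : Fin M → ℝ | cl ω x = b} = {ω : Fin M → ℝ | true = b} := by
      unfold cl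
      simp only [dif_neg h]
    rw [this]
    exact MeasurableSet.const _


section

variable (n M : ℕ)

/-- the progressions with difference at least two -/
private abbrev Ap : Type :=
  {q : Fin (2 * M) × Fin (2 * M) // 2 ≤ (q.2 : ℕ) ∧ (q.1 : ℕ) + (n - 1) * q.2 < 2 * M}

variable {n M}

private def ps (q : Ap n M) (i : ℕ) : ℕ := (q.1.1 : ℕ) + i * (q.1.2 : ℕ)

private theorem ps_lt (q : Ap n M) {i : ℕ} (hi : i < n) : ps q i / 2 < M := by
  have h1 := q.2.2
  have h2 : i * (q.1.2 : ℕ) ≤ (n - 1) * (q.1.2 : ℕ) := Nat.mul_le_mul_right _ (by omega)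
  unfold ps
  omega

private theorem ps_inj (q : Ap n M) {i i' : ℕ} (h : i < i') : ps q i / 2 < ps q i' / 2 := by
  have h1 := q.2.1
  have h2 : (i + 1) * (q.1.2 : ℕ) ≤ i' * (q.1.2 : ℕ) := Nat.mul_le_mul_right _ h
  have h3 : (i + 1) * (q.1.2 : ℕ) = i * (q.1.2 : ℕ) + (q.1.2 : ℕ) := by ring
  unfold ps
  omega

open Classical in
private noncomputable def Wv (q : Ap n M) : Finset (Fin M) :=
  univ.filter (fun j => ∃ i, i < n ∧ ps q i / 2 = (j : ℕ))

private def Ev (q : Ap n M) : Set (Fin M → ℝ) := {ω | ∃ b, ∀ i, i < n → cl ω (ps q i) = b}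

private theorem Ev_meas (q : Ap n M) : MeasurableSet (Ev q) := by
  have : Ev q = ⋃ b : Bool, ⋂ i : ℕ, ⋂ _ : i < n, {ω : Fin M → ℝ | cl ω (ps q i) = b} := by
    ext ω
    simp only [Ev, Set.mem_setOf_eq, Set.mem_iUnion, Set.mem_iInter]
  rw [this]
  exact MeasurableSet.iUnion fun b => MeasurableSet.iInter fun i =>
    MeasurableSet.iInter fun _ => cl_meas _ _

private theorem Ev_dep (q : Ap n M) (g g' : Fin M → ℝ) (h : ∀ i ∈ Wv q, g i = g' i) :
    g ∈ Ev q ↔ g' ∈ Ev q := by
  have h1 : ∀ i, i < n → cl g (ps q i) = cl g' (ps q i) := fun i hi =>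
    cl_congr (ps_lt q hi) (h _ (by
      unfold Wv
      rw [mem_filter]
      exact ⟨mem_univ _, i, hi, rfl⟩))
  constructor
  · rintro ⟨b, hb⟩
    exact ⟨b, fun i hi => by rw [← h1 i hi]; exact hb i hi⟩
  · rintro ⟨b, hb⟩
    exact ⟨b, fun i hi => by rw [h1 i hi]; exact hb i hi⟩

private theorem Wv_card (q : Ap n M) : n ≤ (Wv q).card := by
  classical
  have h1 : (range n).image (fun i => ps q i / 2) ⊆ (Wv q).image Fin.val := by
    intro y hy
    rw [mem_image] at hy
    obtain ⟨i, hi, rfl⟩ := hy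
    rw [mem_range] at hi
    rw [mem_image]
    refine ⟨⟨ps q i / 2, ps_lt q hi⟩, ?_, rfl⟩
    unfold Wv
    rw [mem_filter]
    exact ⟨mem_univ _, i, hi, rfl⟩
  have h2 : ((range n).image (fun i => ps q i / 2)).card = n := by
    rw [card_image_of_injective, card_range]
    intro i i' h
    rcases lt_trichotomy i i' with h3 | h3 | h3
    · exact absurd h (ne_of_lt (ps_inj q h3))
    · exact h3
    · exact absurd h.symm (ne_of_lt (ps_inj q h3))
  calc n = _ := h2.symm
    _ ≤ _ := card_le_card h1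
    _ ≤ _ := card_image_le

private theorem coin_b (c b : Bool) :
    coin {t : ℝ | (decide (t < 1 / 2) == c) = b} = 2⁻¹ := by
  cases c <;> cases b <;> simp
  · have := coin_lt; simpa using this
  · have := coin_ge; simpa using this
  · have := coin_ge; simpa using this
  · have := coin_lt; simpa using this

private theorem Ev_prob (q : Ap n M) :
    (Measure.pi (fun _ : Fin M => coin)).real (Ev q) ≤ 2 * (1 / 2 : ℝ) ^ n := by
  classical
  set μ := Measure.pi (fun _ : Fin M => coin) with hμ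
  have h1 : ∀ b : Bool, μ {ω | ∀ i, i < n → cl ω (ps q i) = b} ≤ (2⁻¹ : ℝ≥0∞) ^ n := by
    intro b
    set A : Fin M → Set ℝ := fun j => {t | ∀ i, i < n → ps q i / 2 = (j : ℕ) →
      (decide (t < 1 / 2) == decide (ps q i % 2 = 0)) = b} with hA
    have hsub : {ω : Fin M → ℝ | ∀ i, i < n → cl ω (ps q i) = b} ⊆ Set.univ.pi A := by
      intro ω hω j _ i hi hij
      have h2 := hω i hi
      unfold cl at h2
      rw [dif_pos (ps_lt q hi)] at h2
      have h3 : (⟨ps q i / 2, ps_lt q hi⟩ : Fin M) = j := Fin.ext hij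
      rw [h3] at h2
      exact h2
    have h2 : ∀ j, coin (A j) ≤ if j ∈ Wv q then (2⁻¹ : ℝ≥0∞) else 1 := by
      intro j
      split_ifs with hj
      · unfold Wv at hj
        rw [mem_filter] at hj
        obtain ⟨_, i, hi, hij⟩ := hj
        calc coin (A j) ≤ coin {t : ℝ | (decide (t < 1 / 2) == decide (ps q i % 2 = 0)) = b} :=
              measure_mono fun t ht => ht i hi hij
          _ = 2⁻¹ := coin_b _ _
      · exact prob_le_one
    calc μ {ω | ∀ i, i < n → cl ω (ps q i) = b} ≤ μ (Set.univ.pi A) := measure_mono hsub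
      _ = ∏ j, coin (A j) := by rw [hμ, Measure.pi_pi]
      _ ≤ ∏ j, (if j ∈ Wv q then (2⁻¹ : ℝ≥0∞) else 1) := Finset.prod_le_prod' fun j _ => h2 j
      _ = (2⁻¹ : ℝ≥0∞) ^ (Wv q).card := by
          rw [Finset.prod_ite_mem, univ_inter, prod_const]
      _ ≤ (2⁻¹ : ℝ≥0∞) ^ n := pow_le_pow_right_of_le_one' (by
          rw [ENNReal.inv_le_one]; norm_num) (Wv_card q)
  have h2 : μ (Ev q) ≤ 2 * (2⁻¹ : ℝ≥0∞) ^ n := by
    have h3 : Ev q ⊆ {ω | ∀ i, i < n → cl ω (ps q i) = true} ∪
        {ω | ∀ i, i < n → cl ω (ps q i) = false} := by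
      rintro ω ⟨b, hb⟩
      cases b
      · right; exact hb
      · left; exact hb
    calc μ (Ev q) ≤ _ := measure_mono h3
      _ ≤ _ := measure_union_le _ _
      _ ≤ (2⁻¹ : ℝ≥0∞) ^ n + (2⁻¹ : ℝ≥0∞) ^ n := add_le_add (h1 true) (h1 false)
      _ = _ := by rw [two_mul]
  have h3 := ENNReal.toReal_mono (by
    refine ENNReal.mul_ne_top (by norm_num) (ENNReal.pow_ne_top (by norm_num))) h2
  rw [ENNReal.toReal_mul, ENNReal.toReal_pow, ENNReal.toReal_inv] at h3
  simpa [Measure.real] using h3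

private theorem dep_card (hn : 2 ≤ n) (q : Ap n M) :
    (Finset.univ.filter (fun k : Ap n M => ¬ Disjoint (Wv k) (Wv q))).card ≤
      2 * n ^ 2 * (2 * M / (n - 1)) := by
  classical
  set K := 2 * M / (n - 1) with hK
  set g : Ap n M → ℕ × ℕ := fun k => ((k.1.1 : ℕ), (k.1.2 : ℕ)) with hg
  have hgi : Function.Injective g := by
    intro a b h
    have h1 := congrArg Prod.fst h
    have h2 := congrArg Prod.snd h
    exact Subtype.ext (Prod.ext (Fin.ext h1) (Fin.ext h2))
  set f : (ℕ × ℕ) × (ℕ × ℕ) → ℕ × ℕ := fun z =>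
    (2 * (ps q z.1.1 / 2) + z.1.2 - z.2.1 * z.2.2, z.2.2) with hf
  have hsub : (Finset.univ.filter (fun k : Ap n M => ¬ Disjoint (Wv k) (Wv q))).image g ⊆
      ((range n ×ˢ range 2) ×ˢ (range n ×ˢ Icc 1 K)).image f := by
    intro y hy
    rw [mem_image] at hy
    obtain ⟨k, hk, rfl⟩ := hy
    rw [mem_filter] at hk
    obtain ⟨j, hj1, hj2⟩ := Finset.not_disjoint_iff.mp hk.2
    unfold Wv at hj1 hj2
    rw [mem_filter] at hj1 hj2
    obtain ⟨_, i', hi', hij'⟩ := hj1
    obtain ⟨_, i, hi, hij⟩ := hj2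
    rw [mem_image]
    refine ⟨((i, ps k i' % 2), (i', (k.1.2 : ℕ))), ?_, ?_⟩
    · simp only [mem_product, mem_range, mem_Icc]
      refine ⟨⟨hi, Nat.mod_lt _ (by norm_num)⟩, hi', by have := k.2.1; omega, ?_⟩
      rw [hK, Nat.le_div_iff_mul_le (by omega), mul_comm]
      have := k.2.2
      omega
    · simp only [hf, hg]
      refine Prod.ext ?_ rfl
      simp only
      have h1 : 2 * (ps q i / 2) + ps k i' % 2 = ps k i' := by omega
      rw [h1]
      unfold ps
      omega
  calc (Finset.univ.filter (fun k : Ap n M => ¬ Disjoint (Wv k) (Wv q))).card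
      = ((Finset.univ.filter (fun k : Ap n M => ¬ Disjoint (Wv k) (Wv q))).image g).card :=
        (card_image_of_injective _ hgi).symm
    _ ≤ _ := card_le_card hsub
    _ ≤ _ := card_image_le
    _ = 2 * n ^ 2 * K := by
        simp only [card_product, card_range, Nat.card_Icc, Nat.add_sub_cancel]
        ring

end

theorem lll_pairs (n M : ℕ) (hn : 2 ≤ n) (hM : 32 * n^2 * M ≤ 2^n * (n-1)) :
    ∃ e : ℕ → Bool, ∀ x d, 1 ≤ d → x + (n-1)*d < 2*M →
      ¬ ∃ b, ∀ i, i < n → xor (e ((x+i*d)/2)) (decide ((x+i*d) % 2 = 1)) = b := by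
  classical
  obtain ⟨K, hK⟩ : ∃ K, K = 2 * M / (n - 1) := ⟨_, rfl⟩
  rcases Nat.eq_zero_or_pos K with hK0 | hK1
  · refine ⟨fun _ => true, fun x d hd h => ?_⟩
    exfalso
    rw [hK0] at hK
    have h1 : 2 * M < n - 1 := by
      by_contra hcon
      push Not at hcon
      have := Nat.div_pos hcon (by omega)
      omega
    have h2 : (n - 1) * 1 ≤ (n - 1) * d := Nat.mul_le_mul_left _ hd
    omega
  have hKM : K * (n - 1) ≤ 2 * M := by rw [hK]; exact Nat.div_mul_le_self _ _
  have h16 : 16 * n ^ 2 * K ≤ 2 ^ n := by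
    have h1 : 16 * n ^ 2 * K * (n - 1) ≤ 2 ^ n * (n - 1) := by
      calc 16 * n ^ 2 * K * (n - 1) = 16 * n ^ 2 * (K * (n - 1)) := by ring
        _ ≤ 16 * n ^ 2 * (2 * M) := Nat.mul_le_mul_left _ hKM
        _ = 32 * n ^ 2 * M := by ring
        _ ≤ _ := hM
    exact Nat.le_of_mul_le_mul_right h1 (by omega)
  have hn3 : 3 ≤ n := by
    by_contra hcon
    have h2 : n = 2 := by omega
    subst h2
    omega
  obtain ⟨ω, hω⟩ := Pool.Agent.Helper62.Disc.local_lemma_pi (fun _ : Fin M => coin)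
    (κ := Ap n M) Ev Ev_meas Wv Ev_dep (2 * (1 / 2 : ℝ) ^ n) ((2 * n ^ 2 * K : ℕ) : ℝ) Ev_prob
    (by positivity)
    (by
      have : 1 ≤ 2 * n ^ 2 * K := Nat.one_le_iff_ne_zero.mpr (by positivity)
      exact_mod_cast this)
    (fun q => by
      have := dep_card hn q
      rw [← hK] at this
      exact_mod_cast this)
    (by
      have h1 : ((16 * n ^ 2 * K : ℕ) : ℝ) ≤ ((2 ^ n : ℕ) : ℝ) := by exact_mod_cast h16
      have h2 : (4 : ℝ) * (2 * (1 / 2 : ℝ) ^ n) * ((2 * n ^ 2 * K : ℕ) : ℝ) =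
          ((16 * n ^ 2 * K : ℕ) : ℝ) / 2 ^ n := by
        rw [one_div, inv_pow]
        push_cast
        field_simp
        ring
      rw [h2, div_le_one (by positivity)]
      exact_mod_cast h1)
  have hcl : ∀ x, x / 2 < M → cl ω x =
      xor (if h : x / 2 < M then decide (ω ⟨x / 2, h⟩ < 1 / 2) else true)
        (decide (x % 2 = 1)) := by
    intro x hx
    unfold cl
    rw [dif_pos hx, dif_pos hx]
    rcases Nat.mod_two_eq_zero_or_one x with h | h <;> rw [h] <;> simp
  refine ⟨fun j => if h : j < M then decide (ω ⟨j, h⟩ < 1 / 2) else true, fun x d hd h => ?_⟩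
  rintro ⟨b, hb⟩
  have hpos : ∀ i, i < n → (x + i * d) / 2 < M := by
    intro i hi
    have h2 : i * d ≤ (n - 1) * d := Nat.mul_le_mul_right _ (by omega)
    omega
  rcases Nat.lt_or_ge d 2 with hd2 | hd2
  · have hd1 : d = 1 := by omega
    subst hd1
    rcases Nat.mod_two_eq_zero_or_one x with hx | hx
    · have h1 := hb 0 (by omega)
      have h2 := hb 1 (by omega)
      have e1 : (x + 0 * 1) / 2 = (x + 1 * 1) / 2 := by omega
      have e2 : (x + 0 * 1) % 2 = 0 := by omega
      have e3 : (x + 1 * 1) % 2 = 1 := by omega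
      rw [e2, e1] at h1
      rw [e3] at h2
      rw [← h1] at h2
      revert h2
      generalize (if h : (x + 1 * 1) / 2 < M then decide (ω ⟨(x + 1 * 1) / 2, h⟩ < 1 / 2)
        else true) = z
      cases z <;> simp
    · have h1 := hb 1 (by omega)
      have h2 := hb 2 (by omega)
      have e1 : (x + 1 * 1) / 2 = (x + 2 * 1) / 2 := by omega
      have e2 : (x + 1 * 1) % 2 = 0 := by omega
      have e3 : (x + 2 * 1) % 2 = 1 := by omega
      rw [e2, e1] at h1
      rw [e3] at h2
      rw [← h1] at h2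
      revert h2
      generalize (if h : (x + 2 * 1) / 2 < M then decide (ω ⟨(x + 2 * 1) / 2, h⟩ < 1 / 2)
        else true) = z
      cases z <;> simp
  · have hdd : 1 * d ≤ (n - 1) * d := Nat.mul_le_mul_right _ (by omega)
    refine hω ⟨(⟨x, by omega⟩, ⟨d, by omega⟩), hd2, h⟩ ⟨b, fun i hi => ?_⟩
    have := hb i hi
    rw [← this]
    exact hcl _ (hpos i hi)

end Pool.Agent.HLL
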